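import Pool.Agent.H90.MR.StmInt

/-! # Project MR-INT (helper90): modules GCD and TAU (helper40) -/

set_option autoImplicit false

namespace Pool.Agent.H40.MR

open Finset

theorem gcd_sum : Pool.Agent.H90.MR.S_GCD := by
  intro n hn
  have h1 : ∑ m ∈ range n, Nat.gcd m n =
      ∑ d ∈ n.divisors, ∑ m ∈ (range n).filter (fun m => Nat.gcd m n = d), Nat.gcd m n :=
    (Finset.sum_fiberwise_of_maps_to
      (fun m _ => Nat.mem_divisors.2 ⟨Nat.gcd_dvd_right m n, by omega⟩) _).symm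
  rw [h1]
  have h2 : ∀ d ∈ n.divisors, ∑ m ∈ (range n).filter (fun m => Nat.gcd m n = d), Nat.gcd m n ≤ n := by
    intro d hd
    have hdn : d ∣ n := Nat.dvd_of_mem_divisors hd
    have h3 : ∑ m ∈ (range n).filter (fun m => Nat.gcd m n = d), Nat.gcd m n =
        ∑ m ∈ (range n).filter (fun m => Nat.gcd m n = d), d :=
      sum_congr rfl fun m hm => (mem_filter.1 hm).2
    have h4 : ((range n).filter (fun m => Nat.gcd m n = d)).card = (n / d).totient := by
      rw [Nat.totient_div_of_dvd hdn]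
      congr 1
      ext m
      simp only [mem_filter]
      rw [Nat.gcd_comm]
    rw [h3, sum_const, h4, smul_eq_mul]
    calc (n / d).totient * d ≤ (n / d) * d := Nat.mul_le_mul_right _ (Nat.totient_le _)
      _ ≤ n := Nat.div_mul_le_self n d
  calc _ ≤ ∑ d ∈ n.divisors, n := sum_le_sum h2
    _ = n * n.divisors.card := by rw [sum_const, smul_eq_mul, mul_comm]

theorem sum_div (N : ℕ) : ∑ k ∈ range N, (k + 1).divisors.card = ∑ D ∈ Icc 1 N, N / D := by
  have h1 : ∀ k ∈ range N, (k + 1).divisors.card = ∑ D ∈ Icc 1 N, if D ∣ k + 1 then 1 else 0 := by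
    intro k hk
    rw [mem_range] at hk
    rw [← card_filter]
    congr 1
    ext D
    simp only [Nat.mem_divisors, mem_filter, mem_Icc]
    constructor
    · rintro ⟨h, _⟩
      exact ⟨⟨Nat.pos_of_dvd_of_pos h (Nat.succ_pos k), (Nat.le_of_dvd (Nat.succ_pos k) h).trans (by omega)⟩, h⟩
    · rintro ⟨_, h⟩
      exact ⟨h, by omega⟩
  rw [sum_congr rfl h1, sum_comm]
  refine sum_congr rfl fun D _ => ?_
  rw [← card_filter, Nat.card_multiples]

theorem tau_sum : Pool.Agent.H90.MR.S_TAU := by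
  intro m
  have h1 : ∑ k ∈ range (2 ^ m), ((k + 1).divisors.card : ℝ) =
      ∑ D ∈ Icc 1 (2 ^ m), ((2 ^ m / D : ℕ) : ℝ) := by
    exact_mod_cast sum_div (2 ^ m)
  rw [h1]
  have h2 : ∑ D ∈ Icc 1 (2 ^ m), ((2 ^ m / D : ℕ) : ℝ) ≤ 2 ^ m * ((harmonic (2 ^ m) : ℚ) : ℝ) := by
    rw [harmonic_eq_sum_Icc]
    push_cast
    rw [mul_sum]
    refine sum_le_sum fun D _ => ?_
    refine (Nat.cast_div_le).trans (le_of_eq ?_)
    push_cast
    rw [div_eq_mul_inv]
  have h3 := harmonic_le_one_add_log (2 ^ m)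
  have h4 : Real.log ((2 ^ m : ℕ) : ℝ) ≤ m := by
    push_cast
    rw [Real.log_pow]
    have : Real.log 2 ≤ 1 := by
      have := Real.log_two_lt_d9
      linarith
    calc (m : ℝ) * Real.log 2 ≤ m * 1 := mul_le_mul_of_nonneg_left this (Nat.cast_nonneg m)
      _ = m := mul_one _
  calc _ ≤ 2 ^ m * ((harmonic (2 ^ m) : ℚ) : ℝ) := h2
    _ ≤ 2 ^ m * ((m : ℝ) + 1) := mul_le_mul_of_nonneg_left (by linarith) (by positivity)

end Pool.Agent.H40.MR
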