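import Pool.Agent.H90.MR.StmFam

/-! # Project MR-FAM (helper90): modules LEVY and CDF (helper40) -/

set_option autoImplicit false

namespace Pool.Agent.H40.MR

open Finset MeasureTheory Filter Pool.Agent.H90.MR

theorem lev {Φ : ℝ → ℝ} (hΦ : Continuous Φ) {A B : ℕ → ℝ → ℝ}
    (h : ∀ δ : ℝ, 0 < δ → ∀ η : ℝ, 0 < η → ∀ᶠ N : ℕ in atTop, ∀ t : ℝ,
      B N t ≤ A N (t + δ) + η ∧ A N (t - δ) ≤ B N t + η)
    (hA : ∀ t, Tendsto (fun N => A N t) atTop (nhds (Φ t))) :
    ∀ t, Tendsto (fun N => B N t) atTop (nhds (Φ t)) := by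
  intro t
  rw [Metric.tendsto_atTop]
  intro ε hε
  obtain ⟨δ', hδ', hc⟩ := Metric.continuous_iff.1 hΦ t (ε / 4) (by positivity)
  set δ := δ' / 2 with hδ
  have hδ0 : 0 < δ := by positivity
  have h1 : |Φ (t + δ) - Φ t| < ε / 4 := by
    have := hc (t + δ) (by
      rw [Real.dist_eq, add_sub_cancel_left, abs_of_pos hδ0, hδ]
      linarith)
    rwa [Real.dist_eq] at this
  have h2 : |Φ (t - δ) - Φ t| < ε / 4 := by
    have := hc (t - δ) (by
      rw [Real.dist_eq, sub_sub_cancel_left, abs_neg, abs_of_pos hδ0, hδ]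
      linarith)
    rwa [Real.dist_eq] at this
  have e1 := (Metric.tendsto_atTop.1 (hA (t + δ))) (ε / 4) (by positivity)
  have e2 := (Metric.tendsto_atTop.1 (hA (t - δ))) (ε / 4) (by positivity)
  obtain ⟨N1, hN1⟩ := e1
  obtain ⟨N2, hN2⟩ := e2
  obtain ⟨N3, hN3⟩ := eventually_atTop.1 (h δ hδ0 (ε / 4) (by positivity))
  refine ⟨N1 + N2 + N3, fun N hN => ?_⟩
  have f1 := hN1 N (by omega)
  have f2 := hN2 N (by omega)
  obtain ⟨f3, f4⟩ := hN3 N (by omega) t
  rw [Real.dist_eq] at f1 f2 ⊢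
  rw [abs_lt] at *
  constructor <;> linarith [f1.1, f1.2, f2.1, f2.2, h1.1, h1.2, h2.1, h2.2]

theorem levy : S_LEVY := by
  intro Φ hΦ F F' h
  refine ⟨fun hF => lev hΦ h hF, fun hF => lev hΦ (fun δ hδ η hη => ?_) hF⟩
  filter_upwards [h δ hδ η hη] with N hN t
  have h1 := (hN (t + δ)).2
  have h2 := (hN (t - δ)).1
  rw [add_sub_cancel_right] at h1
  rw [sub_add_cancel] at h2
  exact ⟨h1, h2⟩

theorem cdf : S_CDF := by
  have hi : Integrable (fun u : ℝ => Real.exp (-u ^ 2 / 2)) := by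
    have h := integrable_exp_neg_mul_sq (show (0 : ℝ) < 1 / 2 by norm_num)
    refine h.congr (Eventually.of_forall fun u => ?_)
    show Real.exp (-(1 / 2) * u ^ 2) = Real.exp (-u ^ 2 / 2)
    congr 1
    ring
  have h1 : gaussCDF = fun t => (1 / √(2 * Real.pi)) *
      ((∫ u in Set.Iic 0, Real.exp (-u ^ 2 / 2)) + ∫ u in (0 : ℝ)..t, Real.exp (-u ^ 2 / 2)) := by
    funext t
    unfold gaussCDF
    rw [← intervalIntegral.integral_Iic_sub_Iic hi.integrableOn hi.integrableOn]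
    ring
  unfold S_CDF
  rw [h1]
  refine continuous_const.mul (continuous_const.add ?_)
  exact intervalIntegral.continuous_primitive (fun a b => hi.intervalIntegrable) 0

end Pool.Agent.H40.MR
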