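import Mathlib

/-! # Project MR-INT (helper90): the number of prime factors (helper40) -/

set_option autoImplicit false

namespace Pool.Agent.H40.MR

open Filter

theorem omega_le (m : ℕ) (hm : 1 ≤ m) : ArithmeticFunction.cardFactors m ≤ Nat.log 2 m := by
  have h1 : 2 ^ ArithmeticFunction.cardFactors m ≤ m := by
    rw [ArithmeticFunction.cardFactors_apply]
    have h2 : m.primeFactorsList.prod = m := Nat.prod_primeFactorsList (by omega)
    have h3 : 2 ^ m.primeFactorsList.length ≤ m.primeFactorsList.prod :=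
      List.pow_card_le_prod _ 2 fun p hp => (Nat.prime_of_mem_primeFactorsList hp).two_le
    rwa [h2] at h3
  exact Nat.le_log_of_pow_le (by norm_num) h1

theorem log_bound (s : ℕ) : ∀ᶠ N : ℕ in Filter.atTop,
    ((Nat.log 2 (N + s) : ℝ) + 1) ^ s ≤ Real.log N ^ (s + 1) := by
  have hl : Tendsto (fun N : ℕ => Real.log (N : ℝ)) atTop atTop :=
    Real.tendsto_log_atTop.comp tendsto_natCast_atTop_atTop
  filter_upwards [hl.eventually (eventually_ge_atTop ((4 : ℝ) ^ s)), hl.eventually (eventually_ge_atTop 1),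
    eventually_ge_atTop (s + 2)] with N h1 h2 hN
  have hN0 : (2 : ℝ) ≤ N := by exact_mod_cast (by omega : 2 ≤ N)
  have hlog2 : (1 / 2 : ℝ) < Real.log 2 := by
    have := Real.log_two_gt_d9
    linarith
  -- `Nat.log 2 (N + s) ≤ log (N + s) / log 2 ≤ 3 log N`
  have h3 : (Nat.log 2 (N + s) : ℝ) * Real.log 2 ≤ Real.log ((N + s : ℕ) : ℝ) := by
    rw [← Real.log_pow]
    refine Real.log_le_log (by positivity) ?_
    exact_mod_cast Nat.pow_log_le_self 2 (by omega)
  have h4 : Real.log ((N + s : ℕ) : ℝ) ≤ Real.log 2 + Real.log N := by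
    rw [← Real.log_mul (by norm_num) (by linarith)]
    refine Real.log_le_log (by exact_mod_cast (by omega : 0 < N + s)) ?_
    push_cast
    have : (s : ℝ) ≤ N := by exact_mod_cast (by omega : s ≤ N)
    linarith
  have h5 : (Nat.log 2 (N + s) : ℝ) + 1 ≤ 4 * Real.log N := by
    have h6 : ((Nat.log 2 (N + s) : ℝ) - 1) * Real.log 2 ≤ Real.log N := by linarith
    have h7 : (Nat.log 2 (N + s) : ℝ) - 1 ≤ 2 * Real.log N := by
      by_contra hcon
      push Not at hcon
      nlinarith
    linarith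
  calc ((Nat.log 2 (N + s) : ℝ) + 1) ^ s ≤ (4 * Real.log N) ^ s :=
        pow_le_pow_left₀ (by positivity) h5 s
    _ = 4 ^ s * Real.log N ^ s := by rw [mul_pow]
    _ ≤ Real.log N * Real.log N ^ s := mul_le_mul_of_nonneg_right h1 (by positivity)
    _ = Real.log N ^ (s + 1) := by ring

end Pool.Agent.H40.MR
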