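import Pool.Agent.H90.MR.Stm

/-! # Project MR (helper90), modules DY and SUP (helper40) -/

set_option autoImplicit false

namespace Pool.Agent.H40.MR

open Finset Pool.Agent.H90.MR

theorem dy : S_DY := by
  intro m
  induction m with
  | zero =>
    intro r b hr hb
    rw [pow_zero] at hr hb
    rw [zero_add, sum_range_one, pow_zero, Nat.div_one, Nat.div_one]
    have hr0 : r = 0 := by omega
    subst hr0
    rcases (by omega : b = 0 ∨ b = 1) with rfl | rfl <;> simp
  | succ m ih =>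
    intro r b hr hb
    rw [pow_succ] at hr hb
    have h := ih (r / 2) (b / 2) (by omega) (by omega)
    rw [sum_range_succ', pow_zero, Nat.div_one, Nat.div_one]
    have h2 : ∀ i ∈ range (m + 1), (if (b / 2 ^ (i + 1)) % 2 = 1 ∧ r / 2 ^ (i + 1) + 1 = b / 2 ^ (i + 1)
        then (1 : ℝ) else 0) =
        if (b / 2 / 2 ^ i) % 2 = 1 ∧ r / 2 / 2 ^ i + 1 = b / 2 / 2 ^ i then (1 : ℝ) else 0 := by
      intro i _
      rw [Nat.div_div_eq_div_mul, Nat.div_div_eq_div_mul, pow_succ, mul_comm (2 ^ i) 2]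
    rw [sum_congr rfl h2, ← h]
    by_cases h3 : r < b
    · rw [if_pos h3]
      by_cases h4 : r / 2 < b / 2
      · rw [if_pos h4, if_neg (by omega)]
        norm_num
      · rw [if_neg h4, if_pos (by omega)]
        norm_num
    · rw [if_neg h3, if_neg (by omega), if_neg (by omega)]
      norm_num

/-- one value of the new label -/
lemma one_value (S : Finset ℕ) (f : ℕ → ℝ) (P : ℕ → Prop) [DecidablePred P] (τ : ℕ → List ℤ)
    (ρ : ℕ → ℤ) (w : ℤ) :
    ∑ c ∈ S.image τ, (∑ k ∈ S.filter (fun k => τ k = c ∧ P k ∧ ρ k = w), f k) ^ 2 ≤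
      ∑ c ∈ S.image (fun k => ρ k :: τ k), (∑ k ∈ S.filter (fun k => ρ k :: τ k = c ∧ P k), f k) ^ 2 := by
  classical
  set g : List ℤ → ℝ := fun c => (∑ k ∈ S.filter (fun k => ρ k :: τ k = c ∧ P k), f k) ^ 2 with hg
  set t := S.image (fun k => ρ k :: τ k) with ht
  have h1 : ∀ c ∈ S.image τ, (∑ k ∈ S.filter (fun k => τ k = c ∧ P k ∧ ρ k = w), f k) ^ 2 =
      g (w :: c) := by
    intro c _
    rw [hg]
    simp only
    congr 1
    refine sum_congr ?_ fun _ _ => rfl
    ext k
    simp only [mem_filter, List.cons.injEq]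
    tauto
  rw [sum_congr rfl h1]
  have h2 : ∀ c, w :: c ∉ t → g (w :: c) = 0 := by
    intro c hc
    rw [hg]
    simp only
    rw [filter_false_of_mem, sum_empty]
    · norm_num
    · rintro k hk ⟨h3, -⟩
      exact hc (h3 ▸ mem_image_of_mem _ hk)
  have h3 : ∑ c ∈ S.image τ, g (w :: c) = ∑ c ∈ (S.image τ).filter (fun c => w :: c ∈ t), g (w :: c) := by
    rw [sum_filter]
    refine sum_congr rfl fun c _ => ?_
    split_ifs with h
    · rfl
    · exact h2 c h
  rw [h3, ← sum_image (f := g) (g := fun c => w :: c)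
    (fun a _ b _ h => (List.cons.inj h).2)]
  refine sum_le_sum_of_subset_of_nonneg ?_ fun c _ _ => ?_
  · intro c hc
    obtain ⟨d, hd, rfl⟩ := mem_image.1 hc
    exact (mem_filter.1 hd).2
  · rw [hg]
    exact sq_nonneg _

theorem sup : S_SUP := by
  classical
  intro m S f rb
  induction rb with
  | nil =>
    intro τ _
    simp [QQ]
  | cons x rb ih =>
    intro τ hrb
    obtain ⟨r, b⟩ := x
    have hx := hrb (r, b) List.mem_cons_self
    simp only at hx
    have hrb' : ∀ x ∈ rb, (∀ k ∈ S, x.1 k < 2 ^ m) ∧ x.2 ≤ 2 ^ m :=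
      fun x hx => hrb x (List.mem_cons_of_mem _ hx)
    set P : ℕ → Prop := fun k => ∀ x ∈ rb, x.1 k < x.2 with hP
    set B : ℕ → List ℤ → ℝ := fun i c => ∑ k ∈ S.filter (fun k => τ k = c ∧ P k),
      (if (b / 2 ^ i) % 2 = 1 ∧ r k / 2 ^ i + 1 = b / 2 ^ i then (1 : ℝ) else 0) * f k with hB
    -- the decomposition
    have hA : ∀ c, ∑ k ∈ S.filter (fun k => τ k = c ∧ ∀ x ∈ (r, b) :: rb, x.1 k < x.2), f k =
        ∑ i ∈ range (m + 1), B i c := by
      intro c
      rw [hB]
      simp only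
      rw [sum_comm]
      have h1 : S.filter (fun k => τ k = c ∧ ∀ x ∈ (r, b) :: rb, x.1 k < x.2) =
          (S.filter (fun k => τ k = c ∧ P k)).filter (fun k => r k < b) := by
        ext k
        simp only [mem_filter, List.forall_mem_cons, hP]
        tauto
      rw [h1, sum_filter]
      refine sum_congr rfl fun k hk => ?_
      have hkS : k ∈ S := (mem_filter.1 hk).1
      rw [← sum_mul, ← dy m (r k) b (hx.1 k hkS) hx.2]
      split_ifs <;> simp
    have hcs : ∀ c, (∑ k ∈ S.filter (fun k => τ k = c ∧ ∀ x ∈ (r, b) :: rb, x.1 k < x.2), f k) ^ 2 ≤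
        ((m : ℝ) + 1) * ∑ i ∈ range (m + 1), B i c ^ 2 := by
      intro c
      rw [hA c]
      have h1 := sq_sum_le_card_mul_sum_sq (s := range (m + 1)) (f := fun i => B i c)
      rw [card_range] at h1
      push_cast at h1
      exact h1
    have hBi : ∀ i ∈ range (m + 1), ∑ c ∈ S.image τ, B i c ^ 2 ≤
        ((m : ℝ) + 1) ^ rb.length *
          QQ m S f (rb.map Prod.fst) (fun k => ((r k / 2 ^ i : ℕ) : ℤ) :: τ k) := by
      intro i _
      refine le_trans ?_ (ih (fun k => ((r k / 2 ^ i : ℕ) : ℤ) :: τ k) hrb')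
      by_cases hodd : (b / 2 ^ i) % 2 = 1
      · refine le_trans (le_of_eq ?_) (one_value S f P τ (fun k => ((r k / 2 ^ i : ℕ) : ℤ))
          ((b / 2 ^ i : ℕ) - 1 : ℤ))
        refine sum_congr rfl fun c _ => ?_
        congr 1
        rw [hB]
        simp only
        have h2 : S.filter (fun k => τ k = c ∧ P k ∧ ((r k / 2 ^ i : ℕ) : ℤ) = ((b / 2 ^ i : ℕ) - 1 : ℤ)) =
            (S.filter (fun k => τ k = c ∧ P k)).filter
              (fun k => (b / 2 ^ i) % 2 = 1 ∧ r k / 2 ^ i + 1 = b / 2 ^ i) := by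
          ext k
          simp only [mem_filter]
          constructor
          · rintro ⟨h3, h4, h5, h6⟩
            exact ⟨⟨h3, h4, h5⟩, hodd, by omega⟩
          · rintro ⟨⟨h3, h4, h5⟩, -, h6⟩
            exact ⟨h3, h4, h5, by omega⟩
        rw [h2]
        conv_rhs => rw [sum_filter]
        refine sum_congr rfl fun k _ => ?_
        split_ifs <;> simp
      · have h2 : ∀ c, B i c = 0 := by
          intro c
          rw [hB]
          simp only
          refine sum_eq_zero fun k _ => ?_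
          rw [if_neg (fun h => hodd h.1), zero_mul]
        simp only [h2]
        have h3 : ∑ c ∈ S.image τ, (0 : ℝ) ^ 2 = 0 := by simp
        rw [h3]
        exact sum_nonneg fun c _ => sq_nonneg _
    calc ∑ c ∈ S.image τ, (∑ k ∈ S.filter (fun k => τ k = c ∧ ∀ x ∈ (r, b) :: rb, x.1 k < x.2), f k) ^ 2
        ≤ ∑ c ∈ S.image τ, ((m : ℝ) + 1) * ∑ i ∈ range (m + 1), B i c ^ 2 :=
          sum_le_sum fun c _ => hcs c
      _ = ((m : ℝ) + 1) * ∑ i ∈ range (m + 1), ∑ c ∈ S.image τ, B i c ^ 2 := by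
          rw [← mul_sum, sum_comm]
      _ ≤ ((m : ℝ) + 1) * ∑ i ∈ range (m + 1), ((m : ℝ) + 1) ^ rb.length *
          QQ m S f (rb.map Prod.fst) (fun k => ((r k / 2 ^ i : ℕ) : ℤ) :: τ k) :=
          mul_le_mul_of_nonneg_left (sum_le_sum hBi) (by positivity)
      _ = _ := by
          rw [← mul_sum, List.length_cons, List.map_cons, QQ, pow_succ]
          ring

end Pool.Agent.H40.MR
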